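import Mathlib
import Pool.Agent.W533.PP.Stm

/-!
The sum over the children of a plane permutation.
-/

set_option autoImplicit false

namespace Pool.Agent.W33.PP

open Finset
open scoped Classical
open Pool.Agent.W533.PP

theorem psum (h1 : PLAB) (h2 : RANK) (h3 : RANKU) : PSUM := by
  intro n τ hτ m
  set L : ℕ := (τ (Fin.last n)).val with hL0
  have hLn : L < n + 1 := (τ (Fin.last n)).isLt
  set A : Finset ℕ := aS τ with hA
  set lo : Finset ℕ := (Finset.range (L + 1)).filter (fun s => Act τ s) with hlo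
  set hi : Finset ℕ := (Finset.Ico (L + 1) (n + 2)).filter (fun s => Act τ s) with hhi
  have hlc : lo.card = hL τ := rfl
  have hhc : hi.card = kL τ := rfl
  have hAmem : ∀ s, s ∈ A ↔ s < n + 2 ∧ Act τ s := by
    intro s
    rw [hA]
    unfold aS
    rw [Finset.mem_filter, Finset.mem_range]
  have hlomem : ∀ s, s ∈ lo ↔ s ≤ L ∧ Act τ s := by
    intro s
    rw [hlo, Finset.mem_filter, Finset.mem_range, Nat.lt_succ_iff]
  have hhimem : ∀ s, s ∈ hi ↔ (L < s ∧ s < n + 2) ∧ Act τ s := by
    intro s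
    rw [hhi, Finset.mem_filter, Finset.mem_Ico, Nat.succ_le_iff]
  have hdisj : Disjoint lo hi := by
    rw [Finset.disjoint_left]
    intro s hs hs'
    have a := ((hlomem s).mp hs).1
    have b := ((hhimem s).mp hs').1.1
    omega
  have hun : lo ∪ hi = A := by
    ext s
    rw [Finset.mem_union, hlomem, hhimem, hAmem]
    constructor
    · rintro (⟨a, b⟩ | ⟨a, b⟩)
      · exact ⟨by omega, b⟩
      · exact ⟨a.2, b⟩
    · rintro ⟨a, b⟩
      by_cases h : s ≤ L
      · exact Or.inl ⟨h, b⟩
      · exact Or.inr ⟨⟨by omega, a⟩, b⟩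
  have hAc : A.card = hL τ + kL τ := by
    rw [← hun, Finset.card_union_of_disjoint hdisj, hlc, hhc]
  -- the value as a function of the site
  let g : ℕ → ℕ := fun s =>
    if s ≤ L then T m ((A.filter (fun x => x ≤ s)).card) ((A.filter (fun x => s ≤ x)).card)
    else T m (hL τ + 1) ((A.filter (fun x => s ≤ x)).card)
  have e1 : ∑ v ∈ (Finset.univ : Finset (Fin (n+2))).filter (fun v => Act τ v.val),
      T m (hL (ins v τ)) (kL (ins v τ)) =
      ∑ v ∈ (Finset.univ : Finset (Fin (n+2))).filter (fun v => Act τ v.val), g v.val := by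
    apply Finset.sum_congr rfl
    intro v hv
    have hv' : Act τ v.val := (Finset.mem_filter.mp hv).2
    obtain ⟨p1, p2⟩ := h1 n τ hτ v hv'
    by_cases h : v.val ≤ L
    · obtain ⟨q1, q2⟩ := p1 h
      show _ = (if v.val ≤ L then _ else _)
      rw [if_pos h, q1, q2]
    · obtain ⟨q1, q2⟩ := p2 (by omega)
      show _ = (if v.val ≤ L then _ else _)
      rw [if_neg h, q1, q2]
  have e2 : ∑ v ∈ (Finset.univ : Finset (Fin (n+2))).filter (fun v => Act τ v.val), g v.val =
      ∑ s ∈ A, g s := by
    rw [Finset.sum_filter, Fin.sum_univ_eq_sum_range (fun s => if Act τ s then g s else 0) (n + 2),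
      ← Finset.sum_filter]
    rfl
  have e3 : ∑ s ∈ A, g s = ∑ s ∈ lo, g s + ∑ s ∈ hi, g s := by
    rw [← hun, Finset.sum_union hdisj]
  have e4 : ∑ s ∈ lo, g s = ∑ j ∈ Finset.range (hL τ), T m (j + 1) (hL τ + kL τ - j) := by
    have r := h2 lo (fun r => T m r (hL τ + kL τ + 1 - r))
    rw [hlc] at r
    have r' : ∑ j ∈ Finset.range (hL τ), T m (j + 1) (hL τ + kL τ + 1 - (j + 1)) =
        ∑ j ∈ Finset.range (hL τ), T m (j + 1) (hL τ + kL τ - j) := by
      apply Finset.sum_congr rfl
      intro j _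
      rw [Nat.add_sub_add_right]
    rw [← r', ← r]
    apply Finset.sum_congr rfl
    intro s hs
    have hs1 := (hlomem s).mp hs
    have c1 : A.filter (fun x => x ≤ s) = lo.filter (fun x => x ≤ s) := by
      ext x
      rw [Finset.mem_filter, Finset.mem_filter, hAmem, hlomem]
      constructor
      · rintro ⟨⟨a, b⟩, c⟩
        exact ⟨⟨by omega, b⟩, c⟩
      · rintro ⟨⟨a, b⟩, c⟩
        exact ⟨⟨by omega, b⟩, c⟩
    have c2 : (A.filter (fun x => x ≤ s)).card + (A.filter (fun x => s ≤ x)).card =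
        A.card + 1 := by
      have c3 : A.filter (fun x => x ≤ s) ∪ A.filter (fun x => s ≤ x) = A := by
        ext x
        rw [Finset.mem_union, Finset.mem_filter, Finset.mem_filter]
        constructor
        · rintro (⟨a, _⟩ | ⟨a, _⟩) <;> exact a
        · intro a
          rcases le_total x s with b | b
          · exact Or.inl ⟨a, b⟩
          · exact Or.inr ⟨a, b⟩
      have c4 : A.filter (fun x => x ≤ s) ∩ A.filter (fun x => s ≤ x) = {s} := by
        ext x
        rw [Finset.mem_inter, Finset.mem_filter, Finset.mem_filter, Finset.mem_singleton]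
        constructor
        · rintro ⟨⟨_, a⟩, ⟨_, b⟩⟩
          omega
        · rintro rfl
          have : x ∈ A := (hAmem x).mpr ⟨by omega, hs1.2⟩
          exact ⟨⟨this, le_refl _⟩, ⟨this, le_refl _⟩⟩
      have c5 := Finset.card_union_add_card_inter (A.filter (fun x => x ≤ s))
        (A.filter (fun x => s ≤ x))
      rw [c3, c4, Finset.card_singleton] at c5
      exact c5.symm
    show (if s ≤ L then T m _ _ else _) = _
    rw [if_pos hs1.1, c1]
    rw [c1] at c2
    have c6 : (A.filter (fun x => s ≤ x)).card =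
        hL τ + kL τ + 1 - (lo.filter (fun x => x ≤ s)).card := by
      omega
    rw [c6]
  have e5 : ∑ s ∈ hi, g s = ∑ i ∈ Finset.range (kL τ), T m (hL τ + 1) (i + 1) := by
    have r := h3 hi (fun i => T m (hL τ + 1) i)
    rw [hhc] at r
    rw [← r]
    apply Finset.sum_congr rfl
    intro s hs
    have hs1 := (hhimem s).mp hs
    have c1 : A.filter (fun x => s ≤ x) = hi.filter (fun x => s ≤ x) := by
      ext x
      rw [Finset.mem_filter, Finset.mem_filter, hAmem, hhimem]
      constructor
      · rintro ⟨⟨a, b⟩, c⟩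
        exact ⟨⟨⟨by omega, a⟩, b⟩, c⟩
      · rintro ⟨⟨a, b⟩, c⟩
        exact ⟨⟨a.2, b⟩, c⟩
    have hsL : ¬ s ≤ L := by omega
    show (if s ≤ L then T m _ _ else _) = _
    rw [if_neg hsL, c1]
  rw [e1, e2, e3, e4, e5, T_succ]

end Pool.Agent.W33.PP
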